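import Mathlib
import Pool.Agent.Hhelper19.VC.Bounds

set_option autoImplicit false

namespace Pool.Agent.Results.MP_fafa1c_co.BoundedVCDimension

open Pool.Agent.Hhelper19.VC

/-- Covers of the triples by `K_4`-free 3-graphs of bounded VC-dimension: every such cover with
`m` members has `m ≥ c log log n / 2 ^ d`, and for `d ≥ 6` there is one with at most
`C log log n` members. So for each fixed `d ≥ 6` the least number is of order `log log n`. -/
theorem result : ∃ c C : ℝ, 0 < c ∧ 0 < C ∧
    (∀ d n m : ℕ, 3 ≤ n → CoversVC d n m → c * Real.log (Real.log n) ≤ 2 ^ d * (m : ℝ)) ∧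
    (∀ d n : ℕ, 6 ≤ d → 16 ≤ n →
      CoversVC d n (f3VC d n) ∧ (f3VC d n : ℝ) ≤ C * Real.log (Real.log n)) := by
  refine ⟨1 / 1157, 8, by norm_num, by norm_num, ?_, ?_⟩
  · intro d n m hn h
    have := lower hn h
    linarith
  · intro d n hd hn
    exact f3VC_spec hd hn

end Pool.Agent.Results.MP_fafa1c_co.BoundedVCDimension
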