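import Mathlib
import Pool.Agent.Hhelper55.TripleCover

set_option autoImplicit false

namespace Pool.Agent.Results.MP_fafa1c_co.GraphReduction

open Pool.Agent.Hhelper55.TripleCover

/-- The order of magnitude of `f3 n` is that of the graph function `f2` at `clog 2 n`
(the least `L` with `n ≤ 2 ^ L`), with explicit constants. -/
theorem result : ∀ n : ℕ, 3 ≤ n →
    f2 (Nat.clog 2 n) ≤ 3 * f3 n ∧ f3 n ≤ 2 * f2 (Nat.clog 2 n) :=
  fun n hn => ⟨f3_lower n hn, f3_upper n⟩

end Pool.Agent.Results.MP_fafa1c_co.GraphReduction
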