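import Pool.Agent.TInv.Final

/-!
MP_fafa1c_co: translation-invariant covers of the triples of a finite group by `K_4^(3)`-free 3-graphs.
-/

set_option autoImplicit false

namespace Pool.Agent.Results.MP_fafa1c_co.InvariantCovers

open Pool.Agent.TInv Pool.Agent.Hhelper55.TripleCover

theorem result (G : Type) [Group G] [Finite G] (h3 : 3 ≤ Nat.card G) :
    (4 ∣ Nat.card G → ∀ m, ¬ CoversInv G m) ∧
    (Group.IsSolvable G → (∃ Z : Subgroup G, Z.Normal ∧ Nat.card Z ≤ 2 ∧ Odd Z.index) →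
      f3 (Nat.card G) ≤ f3Inv G ∧ f3Inv G ≤ 21 * f3 (Nat.card G) ∧ CoversInv G (f3Inv G)) :=
  main G h3

end Pool.Agent.Results.MP_fafa1c_co.InvariantCovers
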