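import Mathlib

/-!
# Covers of all triples by 3-graphs without `K_4^(3)` whose links have few colours

Let `f(n, r)` be the least number of `K_4^(3)`-free 3-graphs which cover all triples of a set of `n`
vertices and all of whose link graphs have chromatic number at most `r`. Then
`log (n - 1) / log r ≤ f(n, r) ≤ 10 f_3(r + 1) log n / log r` for `2 ≤ r ≤ n`. So `f(n, r)` is of the
order `log n` for every fixed `r`, and a cover with `m` members has a link of chromatic number at
least `(n - 1) ^ (1 / m)`.

Lower bound: the links of one vertex cover all pairs of the other `n - 1` vertices, and the product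
of their colourings is injective. Upper bound: blow up a cover of the triples of `r + 1` points along
`s` maps to these points such that every triple is mapped injectively by one of them.
-/

set_option autoImplicit false

namespace Pool.Agent.Results.MP_fafa1c_co.LinkColouring

open Finset

/-- The sets `H i` consist of triples of `n` vertices, none contains all four triples of a 4-set,
and every triple is in one of them. -/
def IsCover (n m : ℕ) (H : Fin m → Set (Finset (Fin n))) : Prop :=
  (∀ i, ∀ t ∈ H i, t.card = 3) ∧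
    (∀ i, ¬ ∃ s : Finset (Fin n), s.card = 4 ∧ ∀ t ⊆ s, t.card = 3 → t ∈ H i) ∧
    ∀ t : Finset (Fin n), t.card = 3 → ∃ i, t ∈ H i

/-- There is a cover of the triples of `n` vertices with `m` members. -/
def Covers3 (n m : ℕ) : Prop := ∃ H, IsCover n m H

/-- The function `f_3` of the problem. -/
noncomputable def f3 (n : ℕ) : ℕ := sInf {m | Covers3 n m}

/-- The link graph of the vertex `v` in `H`, in which `u` and `w` are adjacent if `{v, u, w} ∈ H`,
has a proper colouring with `r` colours. -/
def LinkColourable (n r : ℕ) (H : Set (Finset (Fin n))) (v : Fin n) : Prop :=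
  ∃ χ : Fin n → Fin r, ∀ u w : Fin n, ({v, u, w} : Finset (Fin n)) ∈ H → χ u ≠ χ w

/-- There is a cover of the triples of `n` vertices with `m` members in which all link graphs of
all members have chromatic number at most `r`. -/
def CoversLink (n r m : ℕ) : Prop := ∃ H, IsCover n m H ∧ ∀ i v, LinkColourable n r (H i) v

/-- The least number of members of a cover of the triples of `n` vertices in which all link graphs
of all members have chromatic number at most `r`. -/
noncomputable def fLink (n r : ℕ) : ℕ := sInf {m | CoversLink n r m}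

/-! ### Lower bound -/

theorem lower {n r m : ℕ} (h : CoversLink n r m) : n - 1 ≤ r ^ m := by
  obtain ⟨H, ⟨-, -, hcov⟩, hlink⟩ := h
  rcases Nat.eq_zero_or_pos n with rfl | hn
  · simp
  let v : Fin n := ⟨0, hn⟩
  choose χ hχ using fun i => hlink i v
  have h1 : (univ.erase v).card ≤ (univ : Finset (Fin m → Fin r)).card := by
    refine Finset.card_le_card_of_injOn (fun u i => χ i u) (fun _ _ => mem_univ _) ?_
    intro u hu w hw huw
    by_contra hne
    have hu' : u ≠ v := (Finset.mem_erase.1 (Finset.mem_coe.1 hu)).1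
    have hw' : w ≠ v := (Finset.mem_erase.1 (Finset.mem_coe.1 hw)).1
    obtain ⟨i, hi⟩ := hcov {v, u, w} (Finset.card_eq_three.2 ⟨v, u, w, hu'.symm, hw'.symm, hne, rfl⟩)
    exact hχ i u w hi (congrFun huw i)
  simpa [Finset.card_erase_of_mem] using h1

/-! ### Maps which separate all triples -/

theorem card_good {n q : ℕ} {a b c : Fin n} (hab : a ≠ b) (hac : a ≠ c) (hbc : b ≠ c) :
    q ^ n * q.descFactorial 3 ≤
      (univ.filter fun f : Fin n → Fin q => ¬ (f a = f b ∨ f a = f c ∨ f b = f c)).card * q ^ 3 := by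
  classical
  have h1 : (univ : Finset ((Fin n → Fin q) × (Fin 3 ↪ Fin q))).card ≤
      ((univ.filter fun f : Fin n → Fin q => ¬ (f a = f b ∨ f a = f c ∨ f b = f c)) ×ˢ
        (univ : Finset (Fin 3 → Fin q))).card := by
    refine Finset.card_le_card_of_injOn (fun p =>
      (Function.update (Function.update (Function.update p.1 a (p.2 0)) b (p.2 1)) c (p.2 2),
        ![p.1 a, p.1 b, p.1 c])) ?_ ?_
    · rintro ⟨f, e⟩ -
      have va : Function.update (Function.update (Function.update f a (e 0)) b (e 1)) c (e 2) a =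
          e 0 := by
        rw [Function.update_of_ne hac, Function.update_of_ne hab, Function.update_self]
      have vb : Function.update (Function.update (Function.update f a (e 0)) b (e 1)) c (e 2) b =
          e 1 := by
        rw [Function.update_of_ne hbc, Function.update_self]
      have vc : Function.update (Function.update (Function.update f a (e 0)) b (e 1)) c (e 2) c =
          e 2 := Function.update_self _ _ _
      simp only [coe_product, coe_filter, mem_univ, true_and, coe_univ, Set.mem_prod,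
        Set.mem_univ, and_true, Set.mem_ofPred_eq]
      rw [va, vb, vc]
      simp only [EmbeddingLike.apply_eq_iff_eq]
      decide
    · rintro ⟨f, e⟩ - ⟨g, d⟩ - h
      simp only [Prod.mk.injEq] at h
      obtain ⟨h2, h3⟩ := h
      have h4 : ∀ x, Function.update (Function.update (Function.update f a (e 0)) b (e 1)) c (e 2) x =
          Function.update (Function.update (Function.update g a (d 0)) b (d 1)) c (d 2) x :=
        fun x => congrFun h2 x
      have ea : e 0 = d 0 := by
        have := h4 a
        rwa [Function.update_of_ne hac, Function.update_of_ne hab, Function.update_self,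
          Function.update_of_ne hac, Function.update_of_ne hab, Function.update_self] at this
      have eb : e 1 = d 1 := by
        have := h4 b
        rwa [Function.update_of_ne hbc, Function.update_self, Function.update_of_ne hbc,
          Function.update_self] at this
      have ec : e 2 = d 2 := by
        have := h4 c
        rwa [Function.update_self, Function.update_self] at this
      have ga : f a = g a := congrFun h3 0
      have gb : f b = g b := congrFun h3 1
      have gc : f c = g c := congrFun h3 2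
      have hed : e = d := by
        ext i
        fin_cases i
        · exact congrArg Fin.val ea
        · exact congrArg Fin.val eb
        · exact congrArg Fin.val ec
      have hfg : f = g := by
        funext x
        by_cases hxa : x = a
        · rw [hxa, ga]
        · by_cases hxb : x = b
          · rw [hxb, gb]
          · by_cases hxc : x = c
            · rw [hxc, gc]
            · have := h4 x
              rwa [Function.update_of_ne hxc, Function.update_of_ne hxb, Function.update_of_ne hxa,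
                Function.update_of_ne hxc, Function.update_of_ne hxb, Function.update_of_ne hxa]
                at this
      rw [hfg, hed]
  simpa using h1

theorem card_bad {n r : ℕ} (hr : 1 ≤ r) {a b c : Fin n} (hab : a ≠ b) (hac : a ≠ c)
    (hbc : b ≠ c) :
    (univ.filter fun f : Fin n → Fin (r + 1) => f a = f b ∨ f a = f c ∨ f b = f c).card *
      (r + 1) ^ 2 ≤ (3 * r + 1) * (r + 1) ^ n := by
  have h1 := card_good (q := r + 1) hab hac hbc
  have h2 := Finset.card_filter_add_card_filter_not (s := (univ : Finset (Fin n → Fin (r + 1))))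
    (fun f => f a = f b ∨ f a = f c ∨ f b = f c)
  rw [Finset.card_univ, Fintype.card_fun, Fintype.card_fin, Fintype.card_fin] at h2
  obtain ⟨p, rfl⟩ : ∃ p, r = p + 1 := ⟨r - 1, by omega⟩
  have h3 : (p + 1 + 1).descFactorial 3 = (p + 2) * ((p + 1) * p) := by
    simp [Nat.descFactorial]
    ring
  rw [h3] at h1
  set G := (univ.filter fun f : Fin n → Fin (p + 1 + 1) =>
    ¬ (f a = f b ∨ f a = f c ∨ f b = f c)).card
  set B := (univ.filter fun f : Fin n → Fin (p + 1 + 1) =>
    f a = f b ∨ f a = f c ∨ f b = f c).card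
  set Q := (p + 1 + 1) ^ n
  have h4 : (p + 2) * (B * (p + 1 + 1) ^ 2) ≤ (p + 2) * ((3 * (p + 1) + 1) * Q) := by
    have h5 : (B + G) * (p + 2) ^ 3 = Q * (p + 2) ^ 3 := by rw [h2]
    have h6 : Q * (p + 2) ^ 3 = Q * ((p + 2) * ((p + 1) * p)) + (p + 2) * ((3 * (p + 1) + 1) * Q) := by
      ring
    have h7 : (B + G) * (p + 2) ^ 3 = (p + 2) * (B * (p + 1 + 1) ^ 2) + G * (p + 1 + 1) ^ 3 := by
      ring
    omega
  exact Nat.le_of_mul_le_mul_left h4 (by omega)

theorem exists_sep {n r s : ℕ} (hr : 1 ≤ r) (h : n ^ 3 * (3 * r + 1) ^ s < (r + 1) ^ (2 * s)) :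
    ∃ φ : Fin s → Fin n → Fin (r + 1), ∀ a b c : Fin n, a ≠ b → a ≠ c → b ≠ c →
      ∃ i, φ i a ≠ φ i b ∧ φ i a ≠ φ i c ∧ φ i b ≠ φ i c := by
  classical
  by_contra hcon
  push Not at hcon
  let D : Finset (Fin n × Fin n × Fin n) :=
    univ.filter fun p => p.1 ≠ p.2.1 ∧ p.1 ≠ p.2.2 ∧ p.2.1 ≠ p.2.2
  let B : Fin n × Fin n × Fin n → Finset (Fin n → Fin (r + 1)) := fun p =>
    univ.filter fun f => f p.1 = f p.2.1 ∨ f p.1 = f p.2.2 ∨ f p.2.1 = f p.2.2
  have h1 : (univ : Finset (Fin s → Fin n → Fin (r + 1))) ⊆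
      D.biUnion fun p => Fintype.piFinset fun _ => B p := by
    intro φ _
    obtain ⟨a, b, c, hab, hac, hbc, hφ⟩ := hcon φ
    rw [Finset.mem_biUnion]
    refine ⟨(a, b, c), ?_, ?_⟩
    · simp only [D, mem_filter, mem_univ, true_and]
      exact ⟨hab, hac, hbc⟩
    · rw [Fintype.mem_piFinset]
      intro i
      simp only [B, mem_filter, mem_univ, true_and]
      by_contra hne
      push Not at hne
      exact hne.2.2 (hφ i hne.1 hne.2.1)
  have h2 := (Finset.card_le_card h1).trans Finset.card_biUnion_le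
  have h3 : ∀ p ∈ D, (Fintype.piFinset fun _ : Fin s => B p).card * ((r + 1) ^ 2) ^ s ≤
      ((3 * r + 1) * (r + 1) ^ n) ^ s := by
    intro p hp
    simp only [D, mem_filter, mem_univ, true_and] at hp
    rw [Fintype.card_piFinset]
    simp only [prod_const, card_univ, Fintype.card_fin]
    rw [← mul_pow]
    exact Nat.pow_le_pow_left (card_bad hr hp.1 hp.2.1 hp.2.2) s
  have h4 : D.card ≤ n ^ 3 := by
    refine (Finset.card_le_univ D).trans (le_of_eq ?_)
    simp only [Fintype.card_prod, Fintype.card_fin]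
    ring
  have h5 : (univ : Finset (Fin s → Fin n → Fin (r + 1))).card * ((r + 1) ^ 2) ^ s ≤
      n ^ 3 * ((3 * r + 1) * (r + 1) ^ n) ^ s := by
    calc (univ : Finset (Fin s → Fin n → Fin (r + 1))).card * ((r + 1) ^ 2) ^ s
        ≤ (∑ p ∈ D, (Fintype.piFinset fun _ : Fin s => B p).card) * ((r + 1) ^ 2) ^ s :=
          Nat.mul_le_mul_right _ h2
      _ = ∑ p ∈ D, (Fintype.piFinset fun _ : Fin s => B p).card * ((r + 1) ^ 2) ^ s :=
          Finset.sum_mul _ _ _
      _ ≤ ∑ _p ∈ D, ((3 * r + 1) * (r + 1) ^ n) ^ s := Finset.sum_le_sum h3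
      _ = D.card * ((3 * r + 1) * (r + 1) ^ n) ^ s := by rw [Finset.sum_const, smul_eq_mul]
      _ ≤ n ^ 3 * ((3 * r + 1) * (r + 1) ^ n) ^ s := Nat.mul_le_mul_right _ h4
  have h6 : (univ : Finset (Fin s → Fin n → Fin (r + 1))).card = ((r + 1) ^ n) ^ s := by simp
  have e2 : ((r + 1) ^ 2) ^ s = (r + 1) ^ (2 * s) := (pow_mul _ _ _).symm
  rw [h6, mul_pow, e2] at h5
  have h7 : 0 < ((r + 1) ^ n) ^ s := by positivity
  have h8 : ((r + 1) ^ n) ^ s * (r + 1) ^ (2 * s) ≤
      ((r + 1) ^ n) ^ s * (n ^ 3 * (3 * r + 1) ^ s) := by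
    calc ((r + 1) ^ n) ^ s * (r + 1) ^ (2 * s) ≤ n ^ 3 * ((3 * r + 1) ^ s * ((r + 1) ^ n) ^ s) := h5
      _ = ((r + 1) ^ n) ^ s * (n ^ 3 * (3 * r + 1) ^ s) := by ring
  exact absurd (Nat.le_of_mul_le_mul_left h8 h7) (not_le.2 h)

/-! ### Upper bound -/

theorem upper {n r k s : ℕ} (hr : 1 ≤ r) (hk : Covers3 (r + 1) k)
    (h : n ^ 3 * (3 * r + 1) ^ s < (r + 1) ^ (2 * s)) : CoversLink n r (s * k) := by
  classical
  obtain ⟨G, hG3, hG4, hGc⟩ := hk
  obtain ⟨φ, hφ⟩ := exists_sep (n := n) (s := s) hr h
  let F : Fin s × Fin k → Set (Finset (Fin n)) := fun p =>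
    {t | t.card = 3 ∧ Set.InjOn (φ p.1) (t : Set (Fin n)) ∧ t.image (φ p.1) ∈ G p.2}
  have hF4 : ∀ p, ¬ ∃ S : Finset (Fin n), S.card = 4 ∧ ∀ t ⊆ S, t.card = 3 → t ∈ F p := by
    intro p
    rintro ⟨S, hS, hall⟩
    have hinj : Set.InjOn (φ p.1) (S : Set (Fin n)) := by
      intro a ha b hb hab
      by_contra hne
      have ha' : a ∈ S := ha
      have hb' : b ∈ S := hb
      obtain ⟨c, hc⟩ : ((S.erase a).erase b).Nonempty := by
        rw [← Finset.card_pos, Finset.card_erase_of_mem (Finset.mem_erase.2 ⟨Ne.symm hne, hb'⟩),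
          Finset.card_erase_of_mem ha', hS]
        norm_num
      rw [Finset.mem_erase, Finset.mem_erase] at hc
      have h1 := hall {a, b, c} (by
        intro x hx
        simp only [mem_insert, mem_singleton] at hx
        rcases hx with rfl | rfl | rfl
        · exact ha'
        · exact hb'
        · exact hc.2.2)
        (Finset.card_eq_three.2 ⟨a, b, c, hne, hc.2.1.symm, hc.1.symm, rfl⟩)
      exact hne (h1.2.1 (by simp) (by simp) hab)
    refine hG4 p.2 ⟨S.image (φ p.1), ?_, fun t ht ht3 => ?_⟩
    · rw [Finset.card_image_of_injOn hinj, hS]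
    · obtain ⟨t', ht', rfl⟩ := Finset.subset_image_iff.1 ht
      have hinj' : Set.InjOn (φ p.1) (t' : Set (Fin n)) := hinj.mono ht'
      rw [Finset.card_image_of_injOn hinj'] at ht3
      exact (hall t' (by exact_mod_cast ht') ht3).2.2
  have hFl : ∀ p v, LinkColourable n r (F p) v := by
    intro p v
    refine ⟨fun u => if hu : φ p.1 u ≠ φ p.1 v then
      (finSuccAboveEquiv (φ p.1 v)).symm ⟨φ p.1 u, hu⟩ else ⟨0, hr⟩, fun u w huw => ?_⟩
    have hcard : ({v, u, w} : Finset (Fin n)).card = 3 := huw.1
    have hinj := huw.2.1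
    have hvu : v ≠ u := by
      rintro rfl
      have : ({v, v, w} : Finset (Fin n)).card ≤ 2 := by
        rw [Finset.insert_eq_of_mem (by simp)]
        exact Finset.card_le_two
      omega
    have hvw : v ≠ w := by
      rintro rfl
      have : ({v, u, v} : Finset (Fin n)).card ≤ 2 := by
        rw [Finset.insert_eq_of_mem (by simp)]
        exact Finset.card_le_two
      omega
    have huw' : u ≠ w := by
      rintro rfl
      have : ({v, u, u} : Finset (Fin n)).card ≤ 2 := by
        rw [Finset.pair_eq_singleton]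
        exact Finset.card_le_two
      omega
    have e1 : φ p.1 u ≠ φ p.1 v := fun e => hvu (hinj (by simp) (by simp) e.symm)
    have e2 : φ p.1 w ≠ φ p.1 v := fun e => hvw (hinj (by simp) (by simp) e.symm)
    have e3 : φ p.1 u ≠ φ p.1 w := fun e => huw' (hinj (by simp) (by simp) e)
    simp only [dif_pos e1, dif_pos e2]
    intro e
    have e4 := (finSuccAboveEquiv (φ p.1 v)).symm.injective e
    exact e3 (congrArg Subtype.val e4)
  refine ⟨fun i => F (finProdFinEquiv.symm i), ⟨fun i t ht => ht.1, fun i => hF4 _,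
    fun t ht => ?_⟩, fun i v => hFl _ v⟩
  · obtain ⟨a, b, c, hab, hac, hbc, rfl⟩ := Finset.card_eq_three.1 ht
    obtain ⟨i, h1, h2, h3⟩ := hφ a b c hab hac hbc
    have himg : ({a, b, c} : Finset (Fin n)).image (φ i) = {φ i a, φ i b, φ i c} := by
      simp [Finset.image_insert]
    obtain ⟨j, hj⟩ := hGc {φ i a, φ i b, φ i c}
      (Finset.card_eq_three.2 ⟨_, _, _, h1, h2, h3, rfl⟩)
    refine ⟨finProdFinEquiv (i, j), ?_⟩
    show ({a, b, c} : Finset (Fin n)) ∈ F (finProdFinEquiv.symm (finProdFinEquiv (i, j)))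
    rw [Equiv.symm_apply_apply]
    refine ⟨ht, ?_, ?_⟩
    · intro x hx y hy hxy
      simp only [coe_insert, coe_singleton, Set.mem_insert_iff, Set.mem_singleton_iff] at hx hy
      rcases hx with rfl | rfl | rfl <;> rcases hy with rfl | rfl | rfl
      · rfl
      · exact absurd hxy h1
      · exact absurd hxy h2
      · exact absurd hxy.symm h1
      · rfl
      · exact absurd hxy h3
      · exact absurd hxy.symm h2
      · exact absurd hxy.symm h3
      · rfl
    · show ({a, b, c} : Finset (Fin n)).image (φ i) ∈ G j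
      rw [himg]
      exact hj
/-- Every set has some cover. -/
theorem exists_cover (q : ℕ) : ∃ k, Covers3 q k := by
  classical
  let e := Fintype.equivFin (Finset (Fin q))
  refine ⟨_, fun i => {t | t.card = 3 ∧ t = e.symm i}, fun i t ht => ht.1, ?_, fun t ht => ?_⟩
  · rintro i ⟨S, hS, hall⟩
    obtain ⟨a, b, ha, hb, hab⟩ := Finset.one_lt_card_iff.1 (show 1 < S.card by omega)
    have h1 := (hall (S.erase a) (Finset.erase_subset _ _)
      (by rw [Finset.card_erase_of_mem ha, hS])).2
    have h2 := (hall (S.erase b) (Finset.erase_subset _ _)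
      (by rw [Finset.card_erase_of_mem hb, hS])).2
    have h3 : a ∈ S.erase b := Finset.mem_erase.2 ⟨hab, ha⟩
    rw [h2, ← h1] at h3
    exact Finset.notMem_erase a S h3
  · exact ⟨e t, ht, (e.symm_apply_apply t).symm⟩

theorem f3_mem (q : ℕ) : Covers3 q (f3 q) := Nat.sInf_mem (s := {m | Covers3 q m}) (exists_cover q)

theorem log_ineq {r : ℕ} (hr : 2 ≤ r) :
    Real.log r / 3 ≤ 2 * Real.log ((r : ℝ) + 1) - Real.log (3 * (r : ℝ) + 1) := by
  have h0 : r * (3 * r + 1) ^ 3 ≤ (r + 1) ^ 6 := by
    obtain ⟨t, rfl⟩ : ∃ t, r = t + 2 := ⟨r - 2, by omega⟩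
    have : (t + 2 + 1) ^ 6 = (t + 2) * (3 * (t + 2) + 1) ^ 3 +
        (t ^ 6 + 18 * t ^ 5 + 108 * t ^ 4 + 297 * t ^ 3 + 396 * t ^ 2 + 233 * t + 43) := by ring
    rw [this]
    exact Nat.le_add_right _ _
  have hr0 : (0 : ℝ) < r := by
    have : 0 < r := by omega
    exact_mod_cast this
  have h1 : (r : ℝ) * (3 * (r : ℝ) + 1) ^ 3 ≤ ((r : ℝ) + 1) ^ 6 := by exact_mod_cast h0
  have h2 : Real.log ((r : ℝ) * (3 * (r : ℝ) + 1) ^ 3) ≤ Real.log (((r : ℝ) + 1) ^ 6) :=
    Real.log_le_log (by positivity) h1
  rw [Real.log_mul hr0.ne' (by positivity), Real.log_pow, Real.log_pow] at h2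
  push_cast at h2
  linarith

theorem pow_ineq {n r : ℕ} (hr : 2 ≤ r) (hn : r ≤ n) :
    ∃ s : ℕ, n ^ 3 * (3 * r + 1) ^ s < (r + 1) ^ (2 * s) ∧
      (s : ℝ) ≤ 10 * (Real.log n / Real.log r) := by
  have hr' : (2 : ℝ) ≤ r := by exact_mod_cast hr
  have hn' : (r : ℝ) ≤ n := by exact_mod_cast hn
  have hlr : 0 < Real.log r := Real.log_pos (by linarith)
  have hln : Real.log r ≤ Real.log n := Real.log_le_log (by linarith) hn'
  have hq : 1 ≤ Real.log n / Real.log r := (one_le_div hlr).2 hln
  refine ⟨⌊9 * (Real.log n / Real.log r)⌋₊ + 1, ?_, ?_⟩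
  · set s : ℕ := ⌊9 * (Real.log n / Real.log r)⌋₊ + 1 with hs
    have h1 : 9 * (Real.log n / Real.log r) < s := by
      rw [hs]
      push_cast
      exact Nat.lt_floor_add_one _
    have h2 : 9 * Real.log n < s * Real.log r := by
      have := mul_lt_mul_of_pos_right h1 hlr
      rwa [mul_assoc, div_mul_cancel₀ _ hlr.ne'] at this
    have h3 := log_ineq hr
    have h4 : (s : ℝ) * (Real.log r / 3) ≤
        s * (2 * Real.log ((r : ℝ) + 1) - Real.log (3 * (r : ℝ) + 1)) :=
      mul_le_mul_of_nonneg_left h3 (Nat.cast_nonneg _)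
    have hn0 : (0 : ℝ) < n := by linarith
    have h5 : Real.log ((n : ℝ) ^ 3 * (3 * (r : ℝ) + 1) ^ s) <
        Real.log (((r : ℝ) + 1) ^ (2 * s)) := by
      rw [Real.log_mul (by positivity) (by positivity), Real.log_pow, Real.log_pow, Real.log_pow]
      push_cast
      linarith
    have h6 : (n : ℝ) ^ 3 * (3 * (r : ℝ) + 1) ^ s < ((r : ℝ) + 1) ^ (2 * s) :=
      (Real.log_lt_log_iff (by positivity) (by positivity)).1 h5
    exact_mod_cast h6
  · push_cast
    have := Nat.floor_le (show (0 : ℝ) ≤ 9 * (Real.log n / Real.log r) by linarith)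
    linarith

/-- **Covers with links of bounded chromatic number.**
1. In a cover of the triples of `n` vertices with `m` members all of whose links have chromatic
number at most `r` one has `n - 1 ≤ r ^ m`.
2. If `n ^ 3 * (3 * r + 1) ^ s < (r + 1) ^ (2 * s)` and the triples of `r + 1` vertices have a cover
with `k` members then there is such a cover of the triples of `n` vertices with `s * k` members.
3. For `2 ≤ r ≤ n` the least number `fLink n r` of members of such a cover is between
`log (n - 1) / log r` and `10 f_3(r + 1) log n / log r`. -/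
theorem result :
    (∀ n r m : ℕ, CoversLink n r m → n - 1 ≤ r ^ m) ∧
    (∀ n r k s : ℕ, 1 ≤ r → Covers3 (r + 1) k →
      n ^ 3 * (3 * r + 1) ^ s < (r + 1) ^ (2 * s) → CoversLink n r (s * k)) ∧
    ∀ n r : ℕ, 2 ≤ r → r ≤ n → CoversLink n r (fLink n r) ∧
      Real.log ((n : ℝ) - 1) / Real.log r ≤ fLink n r ∧
      (fLink n r : ℝ) ≤ 10 * f3 (r + 1) * (Real.log n / Real.log r) := by
  refine ⟨fun n r m => lower, fun n r k s => upper, fun n r hr hn => ?_⟩
  obtain ⟨s, hs, hs'⟩ := pow_ineq hr hn
  have h1 := upper (by omega) (f3_mem (r + 1)) hs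
  have hmem : CoversLink n r (fLink n r) :=
    Nat.sInf_mem (s := {m | CoversLink n r m}) ⟨_, h1⟩
  have hle : fLink n r ≤ s * f3 (r + 1) := Nat.sInf_le h1
  have hr' : (2 : ℝ) ≤ r := by exact_mod_cast hr
  have hn' : (r : ℝ) ≤ n := by exact_mod_cast hn
  have hlr : 0 < Real.log r := Real.log_pos (by linarith)
  refine ⟨hmem, ?_, ?_⟩
  · have h2 := lower hmem
    have h3 : ((n : ℝ) - 1) ≤ (r : ℝ) ^ fLink n r := by
      have h4 : ((n - 1 : ℕ) : ℝ) ≤ ((r ^ fLink n r : ℕ) : ℝ) := by exact_mod_cast h2
      rw [Nat.cast_sub (by omega)] at h4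
      push_cast at h4
      exact h4
    rw [div_le_iff₀ hlr, ← Real.log_pow]
    exact Real.log_le_log (by linarith) h3
  · have h5 : (fLink n r : ℝ) ≤ s * f3 (r + 1) := by exact_mod_cast hle
    calc (fLink n r : ℝ) ≤ s * f3 (r + 1) := h5
      _ ≤ 10 * (Real.log n / Real.log r) * f3 (r + 1) :=
        mul_le_mul_of_nonneg_right hs' (Nat.cast_nonneg _)
      _ = 10 * f3 (r + 1) * (Real.log n / Real.log r) := by ring

end Pool.Agent.Results.MP_fafa1c_co.LinkColouring
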